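import Pool.Agent.H242.GX.Stm2

/-!
# Project GX (helper242): GX-FORMALM

Adaptation of `Pool/Agent/H10/GX/FORMAL.lean`.
-/

open Set Filter Topology
open scoped ContDiff
open Pool.Agent.H242.GX

namespace Pool.Agent.H200.GX

theorem EP.toPP {u : ℝ → ℝ} (hu : EP u) : PP u := ⟨hu.smooth, hu.per⟩

/-- The property of the partial sums. -/
def PS (X : ℝ × ℝ → ℝ × ℝ) (n : ℕ) (H : ℝ × ℝ → ℝ) : Prop :=
  ContDiff ℝ ∞ H ∧ (∀ φ y : ℝ, H (φ + 2 * Real.pi, y) = H (φ, y)) ∧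
    (∀ φ y : ℝ, H (-φ, y) = H (φ, y)) ∧
    ∃ E : ℝ × ℝ → ℝ, ContDiff ℝ ∞ E ∧ ∀ θ t : ℝ, Odd X H θ t = t ^ (2 * n + 3) * E (θ, t)

theorem ps_step (hSTEPM : S_STEPM) (X Z : ℝ × ℝ → ℝ × ℝ) (hW : MWeb X Z) (n : ℕ)
    (H : ℝ × ℝ → ℝ) (hH : PS X n H) :
    ∃ u : ℝ → ℝ, EP u ∧ PS X (n + 1) (fun x => H x + x.2 ^ (n + 1) * u x.1) := by
  obtain ⟨hs, hper, hev, E, hE, hOdd⟩ := hH
  obtain ⟨u, hu, E', hE', hO'⟩ := hSTEPM X Z hW (n + 1) H E (by omega) hs hper hev hE (by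
      intro θ t
      rw [hOdd θ t]
      congr 2)
  refine ⟨u, hu, ?_, ?_, ?_, E', hE', ?_⟩
  · have h1 : ContDiff ℝ ∞ (fun x : ℝ × ℝ => x.2 ^ (n + 1)) := contDiff_snd.pow _
    have h2 : ContDiff ℝ ∞ (fun x : ℝ × ℝ => u x.1) := hu.smooth.comp contDiff_fst
    exact hs.add (h1.mul h2)
  · intro φ y
    simp only [hper, hu.per]
  · intro φ y
    simp only [hev, hu.even]
  · intro θ t
    rw [hO' θ t]

theorem ps_base (hBASEM : S_BASEM) (X Z : ℝ × ℝ → ℝ × ℝ) (hW : MWeb X Z) (w : ℝ → ℝ) (hw : EP w)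
    (hrel : ∀ θ : ℝ, deriv (fun t => (X (θ, t)).2) 0 * deriv (fun t => (X (θ, t)).1) 0 * deriv w θ
      + deriv (deriv (fun t => (X (θ, t)).2)) 0 * w θ = 0) :
    PS X 1 (fun x => x.2 * w x.1) := by
  obtain ⟨E, hE, hO⟩ := hBASEM X Z hW.toWeb w (EP.toPP hw) hrel
  refine ⟨?_, ?_, ?_, E, hE, ?_⟩
  · exact contDiff_snd.mul (hw.smooth.comp contDiff_fst)
  · intro φ y
    simp only [hw.per]
  · intro φ y
    simp only [hw.even]
  · intro θ t
    rw [hO θ t]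

theorem exists_seq (hBASEM : S_BASEM) (hSTEPM : S_STEPM) (X Z : ℝ × ℝ → ℝ × ℝ) (hW : MWeb X Z)
    (w : ℝ → ℝ) (hw : EP w)
    (hrel : ∀ θ : ℝ, deriv (fun t => (X (θ, t)).2) 0 * deriv (fun t => (X (θ, t)).1) 0 * deriv w θ
      + deriv (deriv (fun t => (X (θ, t)).2)) 0 * w θ = 0) :
    ∃ u : ℕ → ℝ → ℝ, (∀ k, PP (u k)) ∧ (∀ φ, u 0 φ = 0) ∧ (∀ φ, u 1 φ = w φ) ∧
      ∀ n : ℕ, PS X (n + 1) (fun x => ∑ k ∈ Finset.range (n + 2), x.2 ^ k * u k x.1) := by
  have hstep := ps_step hSTEPM X Z hW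
  choose! U hU using hstep
  let HH : ℕ → (ℝ × ℝ → ℝ) := fun n =>
    Nat.rec (fun x => x.2 * w x.1) (fun n H => fun x => H x + x.2 ^ (n + 2) * U (n + 1) H x.1) n
  have hHH : ∀ n, PS X (n + 1) (HH n) := by
    intro n
    induction n with
    | zero => exact ps_base hBASEM X Z hW w hw hrel
    | succ n ih => exact (hU (n + 1) (HH n) ih).2
  let u : ℕ → ℝ → ℝ := fun k => match k with
    | 0 => fun _ => 0
    | 1 => w
    | (n + 2) => U (n + 1) (HH n)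
  refine ⟨u, ?_, fun _ => rfl, fun _ => rfl, ?_⟩
  · intro k
    match k with
    | 0 => exact ⟨contDiff_const, fun _ => rfl⟩
    | 1 => exact EP.toPP hw
    | (n + 2) => exact EP.toPP (hU (n + 1) (HH n) (hHH n)).1
  · intro n
    have key : ∀ n, (fun x : ℝ × ℝ => ∑ k ∈ Finset.range (n + 2), x.2 ^ k * u k x.1) = HH n := by
      intro n
      induction n with
      | zero =>
        funext x
        rw [Finset.sum_range_succ, Finset.sum_range_one]
        show x.2 ^ 0 * 0 + x.2 ^ 1 * w x.1 = x.2 * w x.1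
        ring
      | succ n ih =>
        funext x
        rw [Finset.sum_range_succ]
        have h2 : ∑ k ∈ Finset.range (n + 1 + 1), x.2 ^ k * u k x.1 = HH n x := congrFun ih x
        rw [h2]
    rw [key n]
    exact hHH n

theorem gx_FORMALM (hBASEM : S_BASEM) (hSTEPM : S_STEPM) (hBOREL : S_BOREL) (hHAD : S_HAD) :
    S_FORMALM := by
  intro X Z hW w hw hrel
  obtain ⟨u, hPP, hu0, hu1, hsum⟩ := exists_seq hBASEM hSTEPM X Z hW w hw hrel
  obtain ⟨H, hHs, hHper, hHR⟩ := hBOREL u hPP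
  refine ⟨H, hHs, hHper, ?_, ?_, ?_⟩
  · intro φ
    obtain ⟨R, -, hR⟩ := hHR 1
    rw [hR φ 0]
    simp [hu0]
  · intro φ
    obtain ⟨R, hRs, hR⟩ := hHR 2
    have h1 : (fun y : ℝ => H (φ, y)) = fun y => (u 0 φ + y * u 1 φ) + y ^ 2 * R (φ, y) := by
      funext y
      rw [hR φ y, Finset.sum_range_succ, Finset.sum_range_one]
      ring
    have hRd : DifferentiableAt ℝ (fun y : ℝ => R (φ, y)) 0 := by
      have : ContDiff ℝ ∞ (fun y : ℝ => R (φ, y)) := hRs.comp (contDiff_const.prodMk contDiff_id)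
      exact (this.differentiable (by simp)) 0
    have h2 : HasDerivAt (fun y : ℝ => (u 0 φ + y * u 1 φ) + y ^ 2 * R (φ, y)) (u 1 φ) 0 := by
      have ha : HasDerivAt (fun y : ℝ => u 0 φ + y * u 1 φ) (u 1 φ) 0 := by
        simpa using ((hasDerivAt_id (0 : ℝ)).mul_const (u 1 φ)).const_add (u 0 φ)
      have hb := (hasDerivAt_pow 2 (0 : ℝ)).mul hRd.hasDerivAt
      have hc := ha.add hb
      refine hc.congr_deriv ?_
      simp
    rw [h1, h2.deriv, hu1]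
  · intro N
    obtain ⟨R, hRs, hR⟩ := hHR (N + 2)
    obtain ⟨-, -, -, E, hE, hOdd⟩ := hsum N
    obtain ⟨r1, hr1s, hr1⟩ := hHAD (fun x => (X x).2) (contDiff_snd.comp hW.smX) (by
      intro θ
      simp [hW.axis θ])
    let q : ℝ × ℝ → ℝ := fun x => (r1 x) ^ (2 * (N + 2)) * R ((X x).1, (X x).2 ^ 2)
    have hq : ContDiff ℝ ∞ q := by
      have h1 : ContDiff ℝ ∞ (fun x : ℝ × ℝ => (X x).1) := contDiff_fst.comp hW.smX
      have h2 : ContDiff ℝ ∞ (fun x : ℝ × ℝ => (X x).2) := contDiff_snd.comp hW.smX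
      exact (hr1s.pow _).mul (hRs.comp (h1.prodMk (h2.pow 2)))
    let G : ℝ × ℝ → ℝ := fun x => x.2 ^ (N + 4) * (x.2 * E x + q x - q (x.1, -x.2))
    have hform : ∀ θ t : ℝ, Odd X H θ t = t ^ N * G (θ, t) := by
      intro θ t
      have hH : ∀ φ y : ℝ, H (φ, y) =
        (∑ k ∈ Finset.range (N + 2), y ^ k * u k φ) + y ^ (N + 2) * R (φ, y) := hR
      have h1 : Odd X H θ t =
          Odd X (fun x => ∑ k ∈ Finset.range (N + 2), x.2 ^ k * u k x.1) θ t +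
          (((X (θ, t)).2 ^ 2) ^ (N + 2) * R ((X (θ, t)).1, (X (θ, t)).2 ^ 2) -
           ((X (θ, -t)).2 ^ 2) ^ (N + 2) * R ((X (θ, -t)).1, (X (θ, -t)).2 ^ 2)) := by
        simp only [Pool.Agent.H242.GX.Odd, hH]
        ring
      have h2 : (X (θ, t)).2 = t * r1 (θ, t) := hr1 θ t
      have h3 : (X (θ, -t)).2 = -t * r1 (θ, -t) := hr1 θ (-t)
      rw [h1, hOdd θ t]
      have h4 : ((X (θ, t)).2 ^ 2) ^ (N + 2) * R ((X (θ, t)).1, (X (θ, t)).2 ^ 2) =
          t ^ (2 * (N + 2)) * q (θ, t) := by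
        simp only [q]
        rw [← pow_mul, h2, mul_pow]
        ring
      have h5 : ((X (θ, -t)).2 ^ 2) ^ (N + 2) * R ((X (θ, -t)).1, (X (θ, -t)).2 ^ 2) =
          t ^ (2 * (N + 2)) * q (θ, -t) := by
        simp only [q]
        rw [← pow_mul, h3, mul_pow]
        have : (-t) ^ (2 * (N + 2)) = t ^ (2 * (N + 2)) := by
          rw [pow_mul, neg_sq, ← pow_mul]
        rw [this]
        ring
      rw [h4, h5]
      simp only [G]
      have e1 : t ^ (2 * (N + 1) + 3) = t ^ N * t ^ (N + 4) * t := by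
        rw [← pow_add, ← pow_succ]; congr 1; omega
      have e2 : t ^ (2 * (N + 2)) = t ^ N * t ^ (N + 4) := by
        rw [← pow_add]; congr 1; omega
      rw [e1, e2]
      ring
    refine ⟨G, ?_, ?_, hform⟩
    · have h1 : ContDiff ℝ ∞ (fun x : ℝ × ℝ => x.2 ^ (N + 4)) := contDiff_snd.pow _
      have h2 : ContDiff ℝ ∞ (fun x : ℝ × ℝ => q (x.1, -x.2)) :=
        hq.comp (contDiff_fst.prodMk contDiff_snd.neg)
      exact h1.mul (((contDiff_snd.mul hE).add hq).sub h2)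
    · intro θ t
      by_cases ht : t = 0
      · subst ht
        simp [G]
      · have hOp : Odd X H (θ + 2 * Real.pi) t = Odd X H θ t := by
          simp only [Pool.Agent.H242.GX.Odd, hW.per θ t, hW.per θ (-t), hHper]
        rw [hform, hform] at hOp
        exact mul_left_cancel₀ (pow_ne_zero N ht) hOp

end Pool.Agent.H200.GX
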